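import Pool.Agent.Q196.Ienv

/-!
# The (I)-envelope of a convex union

`Ienv (A ∪ B) = Ienv A ∪ Ienv B` whenever `A ∪ B` is convex; neither the convexity of `A` and `B`
nor the completeness of the space is needed.

A functional `η` is outside `Ienv A` exactly when some sequence `(x n)` of the unit ball satisfies,
for some `δ > 0` and every `ξ` in `A`, `Re (ξ - η)(x n) ≤ -δ` for all large `n`.  Given such
sequences `x` for `A` and `y` for `B`, some subsequence of `w x n + (1 - w) y n`, `0 ≤ w ≤ 1`, works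
for `A ∪ B`.
-/

namespace Pool.Agent.Results.MP_b3c6e2_an.EnvelopeOfUnion

open Pool.Agent.Q196.IEnvelope

universe u v

theorem result (𝕜 : Type u) [RCLike 𝕜] (X : Type v) [NormedAddCommGroup X] [NormedSpace 𝕜 X]
    (A B : Set (StrongDual 𝕜 X)) (hAB : Convex ℝ (A ∪ B)) :
    Ienv (A ∪ B) = Ienv A ∪ Ienv B :=
  Ienv_union hAB

end Pool.Agent.Results.MP_b3c6e2_an.EnvelopeOfUnion
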